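import Pool.Agent.helper32.EX.SpecD

set_option autoImplicit false

namespace Pool.Agent.EX

theorem HCU_gen {n : ℕ} {C : Matrix (Fin n) (Fin n) ℤ} [hC : Fact (Dyn C)] {F : Type} [Field F]
    (hMCJ : MCJ_stmt) (h : LV C F ≃ₗ[F] LV C F) (hh : IsH h) (P : Rt C → Prop)
    (S : Set (LV C F ≃ₗ[F] LV C F)) (hS : ∀ g, g ∈ S ↔ ∃ (α : Rt C) (t : F), P α ∧ g = xl α t) :
    ∀ u ∈ Subgroup.closure S, h * u * h⁻¹ ∈ Subgroup.closure S := by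
  have h1 : Subgroup.closure S ≤ (Subgroup.closure S).comap (MulAut.conj h).toMonoidHom := by
    rw [Subgroup.closure_le]
    intro g hg
    obtain ⟨α, t, hα, rfl⟩ := (hS g).1 hg
    obtain ⟨c, _, hc⟩ := hMCJ C F h 1 hh.1 hh.2 α
    show h * xl α t * h⁻¹ ∈ Subgroup.closure S
    rw [hc t]
    exact Subgroup.subset_closure ((hS _).2 ⟨α, c * t, hα, rfl⟩)
  intro u hu
  exact h1 hu

theorem HCU (hMCJ : MCJ_stmt) (hMMU : MMU_stmt) : HCU_stmt := by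
  intro n C hC F _ h hh
  refine ⟨?_, fun i => ?_, fun k => ?_⟩
  · exact HCU_gen hMCJ h hh (fun α => Pos α) _ (fun g => Iff.rfl)
  · refine HCU_gen hMCJ h hh (fun α => Pos α ∧ α ≠ sm C i) _ (fun g => ?_)
    constructor
    · rintro ⟨α, t, h1, h2, h3⟩
      exact ⟨α, t, ⟨h1, h2⟩, h3⟩
    · rintro ⟨α, t, ⟨h1, h2⟩, h3⟩
      exact ⟨α, t, h1, h2, h3⟩
  · refine HCU_gen hMCJ h hh (fun α => Pos α ∧ k ≤ ht α) _ (fun g => ?_)
    constructor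
    · rintro ⟨α, t, h1, h2, h3⟩
      exact ⟨α, t, ⟨h1, h2⟩, h3⟩
    · rintro ⟨α, t, ⟨h1, h2⟩, h3⟩
      exact ⟨α, t, h1, h2, h3⟩

end Pool.Agent.EX
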