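import Pool.Agent.helper32.EX.SpecA

set_option autoImplicit false

namespace Pool.Agent.EX

theorem XEF : XEF_stmt := by
  intro n C hC R _ α t v
  have h1 : (br (ev C α t) v).1 = -((t * v.2 (-α)) • rt R α) := by
    simp only [br]
    rw [Finset.sum_eq_single α]
    · rw [ev_snd_self]
    · intro b _ hb
      rw [ev_snd, if_neg hb, zero_mul, zero_smul]
    · intro h
      exact absurd (Finset.mem_univ α) h
  have h2 : ∀ γ : Rt C, (br (ev C α t) v).2 γ = -(bl C v.1 (rt R γ) * (if γ = α then t else 0)) +
      (eps C α.1 (γ.1 - α.1) : R) * t * ext v.2 (γ.1 - α.1) := by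
    intro γ
    simp only [br]
    rw [Finset.sum_eq_single α]
    · rw [ev_snd_self, ev_fst, bl_zero_left, ev_snd, zero_mul, zero_sub]
    · intro b _ hb
      rw [ev_snd, if_neg hb, mul_zero, zero_mul]
    · intro h
      exact absurd (Finset.mem_univ α) h
  refine Prod.ext ?_ (funext fun γ => ?_)
  · simp only [ex, xf, Prod.fst_add, Prod.smul_fst, h1, ev_fst, smul_zero, add_zero]
    rw [sub_eq_add_neg]
  · simp only [ex, xf, Prod.snd_add, Prod.smul_snd, Pi.add_apply, Pi.smul_apply, smul_eq_mul, h2, fo_ev, ev_snd]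
    by_cases h : γ = α
    · subst h
      simp only [if_true]
      ring
    · simp only [if_neg h]
      ring

end Pool.Agent.EX
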